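import Mathlib

namespace Pool.Agent.Results.MP_66c699_al.Torsion

open Equiv

/-- Vertices of the `d`-regular rooted tree. -/
abbrev V (d : ℕ) := List (Fin d)

/-- A permutation of the vertices is a tree automorphism. -/
def IsAut {d : ℕ} (g : Perm (V d)) : Prop :=
  ∀ v w : V d, (g v).length = v.length ∧ ∃ w', g (v ++ w) = g v ++ w'

/-- The section `g_v`, given by `g (v w) = g(v) g_v(w)`. -/
def sec {d : ℕ} (g : Perm (V d)) (v w : V d) : V d := (g (v ++ w)).drop v.length

/-- The finite subtree of vertices of length at most `D`. -/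
abbrev VD (d D : ℕ) := {w : V d // w.length ≤ D}

/-- The group of finite type given by the patterns `P`. -/
def GP {d D : ℕ} (P : Subgroup (Perm (VD d D))) : Set (Perm (V d)) :=
  {g | IsAut g ∧ ∀ v, ∃ p ∈ P, ∀ w : VD d D, (p w).1 = sec g v w.1}

/-- The stabilizer of level `D - 1` in `GP P`. -/
def K {d D : ℕ} (P : Subgroup (Perm (VD d D))) : Set (Perm (V d)) :=
  {g | g ∈ GP P ∧ ∀ w : V d, w.length = D - 1 → g w = w}

/-- The commutator subgroup of `K P`. -/
def K' {d D : ℕ} (P : Subgroup (Perm (VD d D))) : Subgroup (Perm (V d)) :=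
  Subgroup.closure {x | ∃ a ∈ K P, ∃ b ∈ K P, x = a * b * a⁻¹ * b⁻¹}

section
variable {d D : ℕ}

lemma IsAut.app {g : Perm (V d)} (h : IsAut g) (v w : V d) : g (v ++ w) = g v ++ sec g v w := by
  obtain ⟨h1, w', h2⟩ := h v w
  rw [sec, h2, ← h1, List.drop_left]

lemma IsAut.len {g : Perm (V d)} (h : IsAut g) (v : V d) : (g v).length = v.length := (h v []).1

lemma isAut_one : IsAut (1 : Perm (V d)) := fun v w => ⟨rfl, w, rfl⟩

lemma IsAut.mul {g h : Perm (V d)} (hg : IsAut g) (hh : IsAut h) : IsAut (g * h) := fun v w =>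
  ⟨by simp [hg.len, hh.len], _, by rw [Perm.mul_apply, hh.app, hg.app, Perm.mul_apply]⟩

lemma IsAut.inv {g : Perm (V d)} (hg : IsAut g) : IsAut g⁻¹ := by
  have hl : ∀ v, (g⁻¹ v).length = v.length := fun v => by
    rw [← hg.len (g⁻¹ v)]; simp
  intro v w
  refine ⟨hl v, (g⁻¹ (v ++ w)).drop v.length, ?_⟩
  set a := g⁻¹ (v ++ w) with ha
  have h1 : g a = v ++ w := by simp [ha]
  have hla : a.length = v.length + w.length := by rw [ha, hl]; simp
  have h2 := hg.app (a.take v.length) (a.drop v.length)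
  rw [List.take_append_drop, h1] at h2
  have h3 : v = g (a.take v.length) :=
    List.append_inj_left h2 (by rw [hg.len]; simp; omega)
  have h4 : g⁻¹ v = a.take v.length := by
    conv_lhs => rw [h3]
    simp
  rw [h4, List.take_append_drop]

lemma sec_mul {g h : Perm (V d)} (hh : IsAut h) (v w : V d) :
    sec (g * h) v w = sec g (h v) (sec h v w) := by
  rw [sec, Perm.mul_apply, hh.app]; conv_rhs => rw [sec, hh.len]

lemma sec_one (v w : V d) : sec (1 : Perm (V d)) v w = w := by simp [sec]

lemma sec_nil (g : Perm (V d)) (w : V d) : sec g [] w = g w := by simp [sec]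

open Classical in
/-- The section as a permutation. -/
noncomputable def secP (g : Perm (V d)) (v : V d) : Perm (V d) :=
  if h : IsAut g then
    { toFun := sec g v
      invFun := sec g⁻¹ (g v)
      left_inv := fun w => by rw [← sec_mul h]; simp [sec_one]
      right_inv := fun w => by
        have := sec_mul (g := g) h.inv (g v) w
        simp [sec_one] at this
        exact this.symm }
  else 1

lemma secP_apply {g : Perm (V d)} (h : IsAut g) (v w : V d) : secP g v w = sec g v w := by
  simp [secP, h]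

lemma sec_sec {g : Perm (V d)} (h : IsAut g) (v u w : V d) :
    sec (secP g v) u w = sec g (v ++ u) w := by
  rw [sec, secP_apply h, sec, sec, List.drop_drop, List.append_assoc, List.length_append]

lemma IsAut.secA {g : Perm (V d)} (h : IsAut g) (v : V d) : IsAut (secP g v) := by
  have hl : ∀ w, (sec g v w).length = w.length := fun w => by simp [sec, h.len]
  intro u w
  refine ⟨by rw [secP_apply h, hl], sec g (v ++ u) w, ?_⟩
  rw [secP_apply h, secP_apply h]
  have h1 := h.app (v ++ u) w
  rw [List.append_assoc, h.app v, h.app v, List.append_assoc] at h1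
  exact List.append_cancel_left h1

lemma secP_mul {g h : Perm (V d)} (hg : IsAut g) (hh : IsAut h) (v : V d) :
    secP (g * h) v = secP g (h v) * secP h v := by
  ext1 w
  rw [Perm.mul_apply, secP_apply hg, secP_apply hh, secP_apply (hg.mul hh), sec_mul hh]

lemma secP_one (v : V d) : secP (1 : Perm (V d)) v = 1 := by
  ext1 w; rw [secP_apply isAut_one, sec_one]; rfl

lemma IsAut.pow {g : Perm (V d)} (hg : IsAut g) (n : ℕ) : IsAut (g ^ n) := by
  induction n with
  | zero => simpa using isAut_one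
  | succ n ih => rw [pow_succ]; exact ih.mul hg

lemma secP_pow {g : Perm (V d)} (hg : IsAut g) (v : V d) (hv : g v = v) (n : ℕ) :
    secP (g ^ n) v = secP g v ^ n := by
  induction n with
  | zero => simpa using secP_one v
  | succ n ih => rw [pow_succ, secP_mul (hg.pow n) hg, hv, ih, pow_succ]

/-- `GP` as a subgroup. -/
def G (P : Subgroup (Perm (VD d D))) : Subgroup (Perm (V d)) where
  carrier := GP P
  one_mem' := ⟨isAut_one, fun v => ⟨1, P.one_mem, fun w => by simp [sec_one]⟩⟩
  mul_mem' := by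
    rintro g h ⟨hg, hg'⟩ ⟨hh, hh'⟩
    refine ⟨hg.mul hh, fun v => ?_⟩
    obtain ⟨p, hp, hp'⟩ := hg' (h v)
    obtain ⟨q, hq, hq'⟩ := hh' v
    exact ⟨p * q, P.mul_mem hp hq, fun w => by rw [Perm.mul_apply, hp', hq', sec_mul hh]⟩
  inv_mem' := by
    rintro g ⟨hg, hg'⟩
    refine ⟨hg.inv, fun v => ?_⟩
    obtain ⟨p, hp, hp'⟩ := hg' (g⁻¹ v)
    refine ⟨p⁻¹, P.inv_mem hp, fun w => ?_⟩
    have h1 := hp' (p⁻¹ w)
    have h2 := sec_mul (g := g⁻¹) hg (g⁻¹ v) (p⁻¹ w).1
    rw [← h1] at h2
    simpa [sec_one] using h2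

/-- `K` as a subgroup. -/
def KS (P : Subgroup (Perm (VD d D))) : Subgroup (Perm (V d)) where
  carrier := K P
  one_mem' := ⟨(G P).one_mem, fun _ _ => rfl⟩
  mul_mem' := by
    rintro g h ⟨hg, hg'⟩ ⟨hh, hh'⟩
    exact ⟨(G P).mul_mem hg hh, fun w hw => by rw [Perm.mul_apply, hh' w hw, hg' w hw]⟩
  inv_mem' := by
    rintro g ⟨hg, hg'⟩
    exact ⟨(G P).inv_mem hg, fun w hw => by rw [Perm.inv_eq_iff_eq, hg' w hw]⟩

variable {P : Subgroup (Perm (VD d D))}

lemma conj_mem {u k : Perm (V d)} (hu : u ∈ G P) (hk : k ∈ KS P) : u * k * u⁻¹ ∈ KS P :=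
  ⟨(G P).mul_mem ((G P).mul_mem hu hk.1) ((G P).inv_mem hu), fun w hw => by
    rw [Perm.mul_apply, Perm.mul_apply, hk.2 _ (by rw [hu.1.inv.len, hw])]; simp⟩

lemma secP_mem {u : Perm (V d)} (hu : u ∈ G P) (v : V d) : secP u v ∈ G P :=
  ⟨hu.1.secA v, fun w => by
    obtain ⟨p, hp, hp'⟩ := hu.2 (v ++ w)
    exact ⟨p, hp, fun z => by rw [hp', sec_sec hu.1]⟩⟩

lemma fix_le {g : Perm (V d)} (hg : IsAut g) (x : Fin d) {n : ℕ}
    (h : ∀ w : V d, w.length = n → g w = w) (w : V d) (hw : w.length ≤ n) : g w = w := by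
  have h1 := h (w ++ List.replicate (n - w.length) x) (by simp; omega)
  rw [hg.app] at h1
  exact List.append_inj_left h1 (hg.len w)

/-- The wreath recursion. -/
def Wf (k : Fin d → Perm (V d)) : V d → V d
  | [] => []
  | y :: w => y :: k y w

/-- The wreath recursion as a homomorphism. -/
def W : (Fin d → Perm (V d)) →* Perm (V d) :=
  MonoidHom.toHomPerm
    { toFun := fun k => Wf k
      map_one' := by funext w; cases w <;> rfl
      map_mul' := fun k l => by funext w; cases w <;> rfl }

lemma W_nil (k : Fin d → Perm (V d)) : W k [] = [] := rfl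
lemma W_cons (k : Fin d → Perm (V d)) (y : Fin d) (w : V d) : W k (y :: w) = y :: k y w := rfl

lemma W_mem (hD : 1 ≤ D) {k : Fin d → Perm (V d)} (hk : ∀ y, k y ∈ KS P) : W k ∈ KS P := by
  have hfix : ∀ w : V d, w.length ≤ D → W k w = w := by
    intro w hw
    cases w with
    | nil => rfl
    | cons y w =>
      rw [W_cons, fix_le (hk y).1.1 y (hk y).2 w (by simp at hw; omega)]
  refine ⟨⟨fun v w => ?_, fun v => ?_⟩, fun w hw => hfix w (by omega)⟩
  · cases v with
    | nil => exact ⟨rfl, W k w, rfl⟩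
    | cons y v =>
      refine ⟨by simp [W_cons, (hk y).1.1.len], sec (k y) v w, ?_⟩
      rw [List.cons_append, W_cons, W_cons, (hk y).1.1.app]; rfl
  · cases v with
    | nil => exact ⟨1, P.one_mem, fun w => by rw [sec_nil, hfix _ w.2]; rfl⟩
    | cons y v =>
      obtain ⟨p, hp, hp'⟩ := (hk y).1.2 v
      exact ⟨p, hp, fun w => by rw [hp']; simp [sec, W_cons]⟩

/-- The recursion restricted to `K`. -/
def WK (hD : 1 ≤ D) (P : Subgroup (Perm (VD d D))) : (Fin d → KS P) →* KS P :=
  MonoidHom.codRestrict (W.comp (MonoidHom.compLeft (KS P).subtype (Fin d))) _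
    (fun k => W_mem hD fun y => (k y).2)

lemma WK_coe (hD : 1 ≤ D) (k : Fin d → KS P) :
    (WK hD P k : Perm (V d)) = W (fun y => (k y : Perm (V d))) := rfl

/-- The action on the first level. -/
def hd (g : Perm (V d)) (x : Fin d) : Fin d := (g [x]).headD x

lemma IsAut.single {g : Perm (V d)} (hg : IsAut g) (x : Fin d) : g [x] = [hd g x] := by
  have := hg.len [x]
  unfold hd
  match h : g [x], this with
  | [y], _ => rfl

lemma IsAut.cons {g : Perm (V d)} (hg : IsAut g) (x : Fin d) (w : V d) :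
    g (x :: w) = hd g x :: secP g [x] w := by
  have := hg.app [x] w
  rw [hg.single] at this
  rw [secP_apply hg]; exact this

lemma IsAut.nil {g : Perm (V d)} (hg : IsAut g) : g [] = [] :=
  List.length_eq_zero_iff.1 (hg.len [])

lemma IsAut.hd_inj {g : Perm (V d)} (hg : IsAut g) : Function.Injective (hd g) := by
  intro x y h
  have : g [x] = g [y] := by rw [hg.single, hg.single, h]
  simpa using g.injective this

lemma conj_W {u : Perm (V d)} (hu : IsAut u) (x : Fin d) (k : Perm (V d)) :
    u * W (Pi.mulSingle x k) * u⁻¹ =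
      W (Pi.mulSingle (hd u x) (secP u [x] * k * (secP u [x])⁻¹)) := by
  rw [mul_inv_eq_iff_eq_mul]
  ext1 w
  cases w with
  | nil => simp [W_nil, hu.nil]
  | cons y w =>
    rw [Perm.mul_apply, Perm.mul_apply, W_cons, hu.cons, hu.cons, W_cons]
    by_cases h : y = x
    · subst h; simp
    · rw [Pi.mulSingle_eq_of_ne h, Pi.mulSingle_eq_of_ne (fun e => h (hu.hd_inj e))]; rfl

lemma WK_single (hD : 1 ≤ D) (x : Fin d) (k : KS P) :
    (WK hD P (Pi.mulSingle x k) : Perm (V d)) = W (Pi.mulSingle x (k : Perm (V d))) := by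
  rw [WK_coe]; congr 1; funext y
  by_cases h : y = x
  · subst h; simp
  · simp [Pi.mulSingle_eq_of_ne h]

instance : Finite (VD d D) := (List.finite_length_le (Fin d) D).to_subtype

lemma pow_fix {u : Perm (V d)} (hu : u ∈ G P) (w : V d) (hw : w.length ≤ D) :
    (u ^ Nat.card P) w = w := by
  obtain ⟨p, hp, hp'⟩ := hu.2 []
  have h1 : ∀ n (z : VD d D), ((p ^ n) z).1 = (u ^ n) z.1 := by
    intro n
    induction n with
    | zero => intro z; rfl
    | succ n ih => intro z; rw [pow_succ, pow_succ, Perm.mul_apply, ih, hp', sec_nil]; rfl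
  have h2 : p ^ Nat.card P = 1 := by
    have := pow_card_eq_one' (x := (⟨p, hp⟩ : P))
    exact congrArg Subtype.val this
  rw [← h1 _ ⟨w, hw⟩, h2]; rfl

lemma pow_mem {u : Perm (V d)} (hu : u ∈ G P) : u ^ Nat.card P ∈ KS P :=
  ⟨(G P).pow_mem hu _, fun w hw => pow_fix hu w (by omega)⟩

lemma prod_orbits {B : Type} [CommGroup B] (σ : Perm (Fin d)) (h : Fin d → B)
    (h1 : ∀ x, h (σ x) = h x) (h2 : ∀ x, h x ^ Function.minimalPeriod σ x = 1) :
    ∏ x, h x = 1 := by
  classical
  have h3 : ∀ (n : ℕ) x, h ((σ ^ n) x) = h x := by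
    intro n
    induction n with
    | zero => intro x; rfl
    | succ n ih => intro x; rw [pow_succ', Perm.mul_apply, h1, ih]
  let R := MulAction.orbitRel (Subgroup.zpowers σ) (Fin d)
  rw [← Finset.prod_fiberwise Finset.univ (fun x => Quotient.mk R x) h]
  refine Finset.prod_eq_one fun q _ => ?_
  induction q using Quotient.inductionOn with
  | h x =>
  have h4 : ∀ y ∈ Finset.univ.filter (fun y => Quotient.mk R y = Quotient.mk R x), h y = h x := by
    intro y hy
    have := Quotient.exact (Finset.mem_filter.1 hy).2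
    obtain ⟨⟨τ, hτ⟩, rfl⟩ := this
    obtain ⟨n, rfl⟩ := (mem_powers_iff_mem_zpowers).2 hτ
    exact h3 n x
  rw [Finset.prod_congr rfl h4, Finset.prod_const]
  have h5 := MulAction.minimalPeriod_eq_card σ x
  have h6 : (Finset.univ.filter (fun y => Quotient.mk R y = Quotient.mk R x)).card =
      Fintype.card (MulAction.orbit (Subgroup.zpowers σ) x) := by
    rw [Fintype.card_subtype]
    congr 1
    ext y
    simp only [Finset.mem_filter, Finset.mem_univ, true_and]
    exact Quotient.eq.trans MulAction.orbitRel_apply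
  rw [h6, ← h5]
  exact h2 x

lemma key (hD : 1 ≤ D) {B : Type} [CommGroup B] (n : ℕ) :
    ∀ (u : Perm (V d)) (hu : u ∈ G P) (f : KS P →* B),
      (∀ k : KS P, f ⟨_, conj_mem hu k.2⟩ = f k) →
      (∀ k : KS P, (∀ w : V d, w.length ≤ n → k.1 w = w) → f k = 1) →
      f ⟨_, pow_mem hu⟩ = 1 := by
  induction n with
  | zero =>
    intro u hu f _ h2
    refine h2 _ fun w hw => pow_fix hu w (by omega)
  | succ n ih =>
    intro u hu f h1 h2
    set N := Nat.card P
    have hk : ∀ x : Fin d, secP (u ^ N) [x] ∈ KS P := fun x =>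
      ⟨secP_mem ((G P).pow_mem hu N) _, fun w hw => by
        have := (hu.1.pow N).cons x w
        rw [pow_fix hu _ (by simp; omega)] at this
        exact (List.cons.inj this).2.symm⟩
    have hx : ∀ x : Fin d, (u ^ N) [x] = [x] := fun x => pow_fix hu _ (by simpa using hD)
    let k : Fin d → KS P := fun x => ⟨_, hk x⟩
    have e1 : (⟨_, pow_mem hu⟩ : KS P) = WK hD P k := by
      apply Subtype.ext
      rw [WK_coe]
      ext1 w
      cases w with
      | nil => exact (hu.1.pow N).nil
      | cons y w =>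
        have h3 := hx y
        rw [(hu.1.pow N).single] at h3
        show (u ^ N) (y :: w) = _
        rw [(hu.1.pow N).cons, W_cons, (List.cons.inj h3).1]
    let F := f.comp (WK hD P)
    have e2 : F k = ∏ x, F (Pi.mulSingle x (k x)) := by
      conv_lhs => rw [← Finset.noncommProd_mulSingle k]
      rw [Finset.map_noncommProd, Finset.noncommProd_eq_prod]
    have hpow : ∀ (j : ℕ) (a : KS P), f ⟨_, conj_mem ((G P).pow_mem hu j) a.2⟩ = f a := by
      intro j
      induction j with
      | zero => intro a; congr 1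
      | succ j ihj =>
        intro a
        rw [← ihj a, ← h1 ⟨_, conj_mem ((G P).pow_mem hu j) a.2⟩]
        congr 1; apply Subtype.ext
        simp [pow_succ', mul_assoc]
    have hconj : ∀ (j : ℕ) (x : Fin d) (a : KS P),
        F (Pi.mulSingle (hd (u ^ j) x) ⟨_, conj_mem (secP_mem ((G P).pow_mem hu j) [x]) a.2⟩) =
          F (Pi.mulSingle x a) := by
      intro j x a
      simp only [F, MonoidHom.comp_apply]
      rw [← hpow j (WK hD P (Pi.mulSingle x a))]
      congr 1; apply Subtype.ext
      simp only [WK_single]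
      rw [conj_W (hu.1.pow j)]
    let σ : Perm (Fin d) := Equiv.ofBijective (hd u) (Finite.injective_iff_bijective.1 hu.1.hd_inj)
    have hσ : ∀ (j : ℕ) x, (u ^ j) [x] = [σ^[j] x] := by
      intro j
      induction j with
      | zero => intro x; rfl
      | succ j ihj =>
        intro x
        rw [pow_succ, Perm.mul_apply, hu.1.single, ihj]; rfl
    rw [e1]
    show F k = 1
    rw [e2]
    refine prod_orbits σ _ (fun x => ?_) (fun x => ?_)
    · rw [← hconj 1 x (k x)]
      have e3 : hd (u ^ 1) x = σ x := by rw [pow_one]; rfl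
      rw [e3]
      congr 2
      apply Subtype.ext
      show secP (u ^ N) [σ x] = secP (u ^ 1) [x] * secP (u ^ N) [x] * (secP (u ^ 1) [x])⁻¹
      rw [pow_one, eq_mul_inv_iff_mul_eq]
      have a1 := secP_mul hu.1 (hu.1.pow N) [x]
      have a2 := secP_mul (hu.1.pow N) hu.1 [x]
      rw [hx] at a1
      rw [hu.1.single, ← pow_succ, pow_succ', a1] at a2
      exact a2.symm
    · set l := Function.minimalPeriod σ x
      have hl : (u ^ l) [x] = [x] := by rw [hσ, Function.iterate_minimalPeriod]
      have hl' : hd (u ^ l) x = x := by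
        rw [(hu.1.pow l).single] at hl; exact (List.cons.inj hl).1
      have hv := secP_mem ((G P).pow_mem hu l) [x]
      have := ih _ hv (F.comp (MonoidHom.mulSingle (fun _ : Fin d => KS P) x))
        (fun a => by
          have := hconj l x a
          rw [hl'] at this
          exact this)
        (fun a ha => h2 _ fun w hw => by
          show (WK hD P (Pi.mulSingle x a) : Perm (V d)) w = w
          rw [WK_single]
          cases w with
          | nil => rfl
          | cons y w =>
            rw [W_cons]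
            by_cases h : y = x
            · subst h; rw [Pi.mulSingle_eq_same, ha w (by simpa using hw)]
            · rw [Pi.mulSingle_eq_of_ne h]; rfl)
      rw [← this]
      have e4 : (⟨_, pow_mem hv⟩ : KS P) = k x ^ l := by
        apply Subtype.ext
        show secP (u ^ l) [x] ^ N = secP (u ^ N) [x] ^ l
        rw [← secP_pow (hu.1.pow l) _ hl, ← secP_pow (hu.1.pow N) _ (hx x), ← pow_mul, ← pow_mul,
          mul_comm]
      rw [e4, map_pow]
      rfl

/-- Elements of `K` fixing the first `n` levels. -/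
def S (P : Subgroup (Perm (VD d D))) (n : ℕ) : Subgroup (KS P) where
  carrier := {k | ∀ w : V d, w.length ≤ n → k.1 w = w}
  one_mem' := fun _ _ => rfl
  mul_mem' := fun {a b} ha hb w hw => by
    show a.1 (b.1 w) = w
    rw [hb w hw, ha w hw]
  inv_mem' := fun {a} ha w hw => by
    show a.1⁻¹ w = w
    rw [Perm.inv_eq_iff_eq, ha w hw]

end

theorem result (d D : ℕ) (hD : 1 ≤ D) (P : Subgroup (Perm (VD d D))) :
    ∃ N : ℕ, 0 < N ∧ ∀ g ∈ K P, ∀ n : ℕ, ∃ h ∈ K' P,
      ∀ w : V d, w.length ≤ n → (g ^ N) w = h w := by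
  refine ⟨Nat.card P, Nat.card_pos, fun g hg n => ?_⟩
  let A := Abelianization (KS P)
  let M : Subgroup A := (S P n).map Abelianization.of
  let f : KS P →* A ⧸ M := (QuotientGroup.mk' M).comp Abelianization.of
  have h1 := key hD n g hg.1 f (fun k => by
      have : (⟨_, conj_mem hg.1 k.2⟩ : KS P) = (⟨g, hg⟩ : KS P) * k * (⟨g, hg⟩ : KS P)⁻¹ := rfl
      rw [this, map_mul, map_mul, map_inv, mul_inv_cancel_comm])
    (fun k hk => (QuotientGroup.eq_one_iff _).2 ⟨k, hk, rfl⟩)
  obtain ⟨s, hs, hs'⟩ := (QuotientGroup.eq_one_iff _).1 h1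
  have h2 : (⟨_, pow_mem hg.1⟩ : KS P) * s⁻¹ ∈ commutator (KS P) := by
    rw [← Abelianization.ker_of, MonoidHom.mem_ker, map_mul, map_inv, hs']; simp
  have h3 : commutator (KS P) ≤ (K' P).comap (KS P).subtype := by
    rw [commutator_def, Subgroup.commutator_le]
    intro a _ b _
    exact Subgroup.subset_closure ⟨a.1, a.2, b.1, b.2, rfl⟩
  refine ⟨_, h3 h2, fun w hw => ?_⟩
  show _ = (g ^ Nat.card P) (s.1⁻¹ w)
  rw [(S P n).inv_mem hs w hw |> fun (e : s.1⁻¹ w = w) => e]

end Pool.Agent.Results.MP_66c699_al.Torsion
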